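import Mathlib

/-!
# Preprojective algebras and the bricks of a brick sequence

For a finite quiver `Q` without loops and multiple arrows and a field `k` we define the
preprojective algebra `Π`, the ideals `I_i` and `I(w)`, the right modules
`B_m = I(s_{u_1} ⋯ s_{u_{m-1}}) / I(s_{u_1} ⋯ s_{u_m})` of a word, and their dimension vectors.
-/

open MulOpposite

universe u v

namespace Pool.Agent.H3.Bricks

/-! ### Definitions -/

/-- A finite quiver without loops, multiple arrows and 2-cycles (an oriented simple graph) with
vertex set `V`: `arrow i j` says that there is an arrow `i → j`. -/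
structure OrientedGraph (V : Type v) where
  /-- there is an arrow from `i` to `j` -/
  arrow : V → V → Prop
  /-- no loops and no pairs of opposite arrows -/
  asymm : ∀ i j, arrow i j → ¬ arrow j i

/-- The underlying simple graph of the quiver. -/
def OrientedGraph.graph {V : Type v} (Q : OrientedGraph V) : SimpleGraph V where
  Adj i j := Q.arrow i j ∨ Q.arrow j i
  symm := ⟨fun _ _ h => h.symm⟩
  loopless := ⟨fun i h => by rcases h with h | h <;> exact Q.asymm i i h h⟩

open scoped Classical in
/-- The Coxeter matrix of a simply-laced diagram: `m(i,i) = 1`, `m(i,j) = 3` if `i` and `j` are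
adjacent, and `m(i,j) = 2` otherwise. The Weyl group of the diagram is the Coxeter group of this
matrix. -/
noncomputable def coxeterMatrix {V : Type v} (G : SimpleGraph V) : CoxeterMatrix V where
  M := Matrix.of fun i j => if i = j then 1 else if G.Adj i j then 3 else 2
  isSymm := by
    ext i j
    simp only [Matrix.transpose_apply, Matrix.of_apply, eq_comm, G.adj_comm]
  diagonal := by simp
  off_diagonal := by
    intro i j h
    simp only [Matrix.of_apply, if_neg h]
    split_ifs <;> decide

section Preprojective

variable {V : Type v} (Q : OrientedGraph V) (k : Type u) [Field k]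

/-- The generators of the path algebra of the double quiver: the vertices and the arrows of the
double quiver, that is, the ordered pairs of adjacent vertices. -/
abbrev Gen : Type v := V ⊕ Q.graph.Dart

/-- the generator of the free algebra given by a vertex -/
noncomputable def fe (i : V) : FreeAlgebra k (Gen Q) := FreeAlgebra.ι k (Sum.inl i)

/-- the generator of the free algebra given by an arrow `d.fst → d.snd` of the double quiver -/
noncomputable def fx (d : Q.graph.Dart) : FreeAlgebra k (Gen Q) := FreeAlgebra.ι k (Sum.inr d)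

open scoped Classical in
/-- The defining relations of the preprojective algebra. The first five are those of the path
algebra of the double quiver (paths are composed from left to right); the last one is
`∑ (a a* - a* a) = 0`, where `a` runs over the arrows of `Q` and `a*` is the opposite arrow. -/
inductive Rel [Fintype V] : FreeAlgebra k (Gen Q) → FreeAlgebra k (Gen Q) → Prop
  | idem (i : V) : Rel (fe Q k i * fe Q k i) (fe Q k i)
  | orth (i j : V) (h : i ≠ j) : Rel (fe Q k i * fe Q k j) 0
  | one : Rel (∑ i, fe Q k i) 1
  | left (d : Q.graph.Dart) : Rel (fe Q k d.fst * fx Q k d) (fx Q k d)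
  | right (d : Q.graph.Dart) : Rel (fx Q k d * fe Q k d.snd) (fx Q k d)
  | preproj : Rel (∑ d : Q.graph.Dart with Q.arrow d.fst d.snd,
      (fx Q k d * fx Q k d.symm - fx Q k d.symm * fx Q k d)) 0

variable [Fintype V]

/-- The preprojective algebra of `Q` over `k`. -/
def Prep : Type (max u v) := RingQuot (Rel Q k)

/-- The ring structure of the quotient. -/
noncomputable def quotRing : Ring (Prep Q k) := RingQuot.instRing (Rel Q k)

noncomputable instance prepRing : Ring (Prep Q k) := quotRing Q k

noncomputable instance prepAlgebra : Algebra k (Prep Q k) := RingQuot.instAlgebra (Rel Q k)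

/-- The quotient map from the free algebra. -/
noncomputable def proj : FreeAlgebra k (Gen Q) →ₐ[k] Prep Q k := RingQuot.mkAlgHom k (Rel Q k)

/-- The idempotent `e_i`. -/
noncomputable def e (i : V) : Prep Q k := proj Q k (fe Q k i)

/-- The ideal `I_i`: the two-sided ideal generated by `1 - e_i`. -/
noncomputable def idl (i : V) : TwoSidedIdeal (Prep Q k) := TwoSidedIdeal.span {1 - e Q k i}

/-- The product of a two-sided ideal and a right ideal. -/
noncomputable def prodIdeal (I : TwoSidedIdeal (Prep Q k))
    (J : Submodule (Prep Q k)ᵐᵒᵖ (Prep Q k)) : Submodule (Prep Q k)ᵐᵒᵖ (Prep Q k) :=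
  Submodule.span _ {z | ∃ x ∈ I, ∃ y ∈ J, z = x * y}

/-- The ideal `I(w) = I_{u_l} ⋯ I_{u_1}` of the word `w = s_{u_1} ⋯ s_{u_l}`, as a right ideal. -/
noncomputable def idealOf (ω : List V) : Submodule (Prep Q k)ᵐᵒᵖ (Prep Q k) :=
  ω.foldl (fun J i => prodIdeal Q k (idl Q k i) J) ⊤

/-- The entry at the vertex `i` of the dimension vector of a right module `M`: the dimension of
`M e_i`. -/
noncomputable def dimVec (M : Type (max u v)) [AddCommGroup M] [Module (Prep Q k)ᵐᵒᵖ M]
    [Module k M] [IsScalarTower k (Prep Q k)ᵐᵒᵖ M] (i : V) : ℕ :=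
  Module.finrank k (LinearMap.range (Algebra.lsmul k k M (op (e Q k i))))

/-- For a word `s_{u_1} ⋯ s_{u_l}` and `m < l` this is the right module
`B_{m+1} = I(s_{u_1} ⋯ s_{u_m}) / I(s_{u_1} ⋯ s_{u_{m+1}})`. -/
def layer (ω : List V) (m : ℕ) : Type (max u v) :=
  ↥(idealOf Q k (ω.take m)) ⧸
    (idealOf Q k (ω.take (m + 1))).submoduleOf (idealOf Q k (ω.take m))

noncomputable instance layerGroup (ω : List V) (m : ℕ) : AddCommGroup (layer Q k ω m) :=
  Submodule.Quotient.addCommGroup
    ((idealOf Q k (ω.take (m + 1))).submoduleOf (idealOf Q k (ω.take m)))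

noncomputable instance layerModule (ω : List V) (m : ℕ) :
    Module (Prep Q k)ᵐᵒᵖ (layer Q k ω m) :=
  Submodule.Quotient.module
    ((idealOf Q k (ω.take (m + 1))).submoduleOf (idealOf Q k (ω.take m)))

noncomputable instance layerSpace (ω : List V) (m : ℕ) : Module k (layer Q k ω m) :=
  Submodule.Quotient.module'
    ((idealOf Q k (ω.take (m + 1))).submoduleOf (idealOf Q k (ω.take m)))

instance layerTower (ω : List V) (m : ℕ) : IsScalarTower k (Prep Q k)ᵐᵒᵖ (layer Q k ω m) :=
  inferInstanceAs (IsScalarTower k (Prep Q k)ᵐᵒᵖ
    (_ ⧸ (idealOf Q k (ω.take (m + 1))).submoduleOf (idealOf Q k (ω.take m))))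

/-- The dimension vector of `B_{m+1}`. -/
noncomputable def brickDim (ω : List V) (m : ℕ) (v : V) : ℕ := dimVec Q k (layer Q k ω m) v

/-- There is a short exact sequence `0 → B_{i+1} → B_{m+1} → B_{j+1} → 0` of right modules. -/
def HasShortExact (ω : List V) (i m j : ℕ) : Prop :=
  ∃ (f : layer Q k ω i →ₗ[(Prep Q k)ᵐᵒᵖ] layer Q k ω m)
    (g : layer Q k ω m →ₗ[(Prep Q k)ᵐᵒᵖ] layer Q k ω j),
    Function.Injective f ∧ Function.Exact f g ∧ Function.Surjective g

end Preprojective

end Pool.Agent.H3.Bricks
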