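import Pool.Agent.H3.Bricks.Defs

/-!
# Lemmas on words, ideals and bricks
-/

open MulOpposite

universe u v

namespace Pool.Agent.H3.Bricks

/-! ### Words in simply-laced Coxeter groups -/

section Words

variable {B : Type*} {W : Type*} [Group W] {M : CoxeterMatrix B} (cs : CoxeterSystem M W)

open scoped Classical in
/-- the permutation of `W × ℤ/2` attached to a simple reflection -/
noncomputable def flip (i : B) : Equiv.Perm (W × ZMod 2) where
  toFun p := (cs.simple i * p.1 * cs.simple i, p.2 + if p.1 = cs.simple i then 1 else 0)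
  invFun p := (cs.simple i * p.1 * cs.simple i, p.2 + if p.1 = cs.simple i then 1 else 0)
  left_inv := by
    rintro ⟨t, z⟩
    have h : cs.simple i * t * cs.simple i = cs.simple i ↔ t = cs.simple i := by
      constructor
      · intro h
        have := congrArg (fun w => cs.simple i * w * cs.simple i) h
        simpa [mul_assoc] using this
      · rintro rfl; simp
    have h2 : (1 : ZMod 2) + 1 = 0 := by decide
    ext
    · simp [mul_assoc]
    · simp only [h]
      split_ifs <;> simp [add_assoc, h2]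
  right_inv := by
    rintro ⟨t, z⟩
    have h : cs.simple i * t * cs.simple i = cs.simple i ↔ t = cs.simple i := by
      constructor
      · intro h
        have := congrArg (fun w => cs.simple i * w * cs.simple i) h
        simpa [mul_assoc] using this
      · rintro rfl; simp
    have h2 : (1 : ZMod 2) + 1 = 0 := by decide
    ext
    · simp [mul_assoc]
    · simp only [h]
      split_ifs <;> simp [add_assoc, h2]

open scoped Classical in
/-- the number of occurrences modulo two -/
noncomputable def cnt (t : W) (l : List W) : ZMod 2 := (List.count t l : ZMod 2)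

lemma cnt_double (t : W) (l : List W) : cnt t (l ++ l) = 0 := by
  classical
  have h2 : (2 : ZMod 2) = 0 := by decide
  simp [cnt, List.count_append, ← two_mul, h2]

open scoped Classical in
lemma prod_flip (ω : List B) (t : W) (z : ZMod 2) :
    (ω.map (flip cs)).prod (t, z) =
      (cs.wordProd ω * t * (cs.wordProd ω)⁻¹, z + cnt t (cs.rightInvSeq ω)) := by
  induction ω with
  | nil => simp [cnt]
  | cons i ω ih =>
    rw [List.map_cons, List.prod_cons, Equiv.Perm.mul_apply, ih]
    simp only [flip, Equiv.coe_fn_mk, cs.wordProd_cons, mul_inv_rev, CoxeterSystem.inv_simple,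
      CoxeterSystem.rightInvSeq, cnt, List.count_cons]
    ext
    · simp [mul_assoc]
    · have h : (cs.wordProd ω * t * (cs.wordProd ω)⁻¹ = cs.simple i) ↔
          ((cs.wordProd ω)⁻¹ * cs.simple i * cs.wordProd ω = t) := by
        constructor
        · intro h; rw [← h]; group
        · intro h; rw [← h]; group
      simp only [h, beq_iff_eq]
      split_ifs <;> simp [add_assoc]

lemma ris_two {i j : B} (h : M i j = 2) :
    cs.wordProd [i, j, i, j] = 1 ∧ cs.rightInvSeq [i, j, i, j] =
      [cs.simple i, cs.simple j] ++ [cs.simple i, cs.simple j] := by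
  have hc : cs.simple i * cs.simple j * (cs.simple i * cs.simple j) = 1 := by
    have := cs.simple_mul_simple_pow i j
    rw [h] at this
    rwa [pow_two] at this
  have hcomm : cs.simple j * cs.simple i = cs.simple i * cs.simple j := by
    have h3 : cs.simple i * cs.simple j = (cs.simple i * cs.simple j)⁻¹ :=
      eq_inv_of_mul_eq_one_left hc
    rw [h3]; simp
  have hcomm' : ∀ x, cs.simple j * (cs.simple i * x) = cs.simple i * (cs.simple j * x) := by
    intro x; rw [← mul_assoc, hcomm, mul_assoc]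
  have ha : cs.simple i * cs.simple i = 1 := cs.simple_mul_simple_self i
  have hb : cs.simple j * cs.simple j = 1 := cs.simple_mul_simple_self j
  have ha' : ∀ x, cs.simple i * (cs.simple i * x) = x := by
    intro x; rw [← mul_assoc, ha, one_mul]
  have hb' : ∀ x, cs.simple j * (cs.simple j * x) = x := by
    intro x; rw [← mul_assoc, hb, one_mul]
  constructor
  · simp only [CoxeterSystem.wordProd_cons, CoxeterSystem.wordProd_nil, mul_one, hcomm, hcomm',
      ha, hb, ha', hb']
  · simp only [CoxeterSystem.rightInvSeq, CoxeterSystem.wordProd_cons, CoxeterSystem.wordProd_nil,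
      mul_inv_rev, CoxeterSystem.inv_simple, mul_one, inv_one, one_mul, mul_assoc,
      hcomm, hcomm', ha, hb, ha', hb', List.cons_append, List.nil_append]

lemma ris_three {i j : B} (h : M i j = 3) :
    cs.wordProd [i, j, i, j, i, j] = 1 ∧ cs.rightInvSeq [i, j, i, j, i, j] =
      [cs.simple i, cs.simple i * (cs.simple j * cs.simple i), cs.simple j] ++
      [cs.simple i, cs.simple i * (cs.simple j * cs.simple i), cs.simple j] := by
  have hc : (cs.simple i * cs.simple j) ^ 3 = 1 := by
    have := cs.simple_mul_simple_pow i j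
    rwa [h] at this
  have hbraid : cs.simple j * (cs.simple i * cs.simple j) =
      cs.simple i * (cs.simple j * cs.simple i) := by
    have h3 : cs.simple j * (cs.simple i * cs.simple j) =
        (cs.simple i * (cs.simple j * cs.simple i))⁻¹ := by
      apply eq_inv_of_mul_eq_one_right
      rw [← hc]; simp [pow_succ, mul_assoc]
    rw [h3]; simp [mul_assoc]
  have hbraid' : ∀ x, cs.simple j * (cs.simple i * (cs.simple j * x)) =
      cs.simple i * (cs.simple j * (cs.simple i * x)) := by
    intro x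
    have := congrArg (fun y => y * x) hbraid
    simpa [mul_assoc] using this
  have ha : cs.simple i * cs.simple i = 1 := cs.simple_mul_simple_self i
  have hb : cs.simple j * cs.simple j = 1 := cs.simple_mul_simple_self j
  have ha' : ∀ x, cs.simple i * (cs.simple i * x) = x := by
    intro x; rw [← mul_assoc, ha, one_mul]
  have hb' : ∀ x, cs.simple j * (cs.simple j * x) = x := by
    intro x; rw [← mul_assoc, hb, one_mul]
  constructor
  · simp only [CoxeterSystem.wordProd_cons, CoxeterSystem.wordProd_nil, mul_one, hbraid, hbraid',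
      ha, hb, ha', hb']
  · simp only [CoxeterSystem.rightInvSeq, CoxeterSystem.wordProd_cons, CoxeterSystem.wordProd_nil,
      mul_inv_rev, CoxeterSystem.inv_simple, mul_one, inv_one, one_mul, mul_assoc,
      hbraid, hbraid', ha, hb, ha', hb', List.cons_append, List.nil_append]

lemma liftable (hM : ∀ i j, M i j = 1 ∨ M i j = 2 ∨ M i j = 3) : M.IsLiftable (flip cs) := by
  intro i j
  have key : ∀ ω : List B, cs.wordProd ω = 1 → (∀ t, cnt t (cs.rightInvSeq ω) = 0) →
      (ω.map (flip cs)).prod = 1 := by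
    intro ω h1 h2
    ext p : 1
    obtain ⟨t, z⟩ := p
    rw [prod_flip, h1, h2]
    simp
  rcases hM i j with h | h | h
  · rw [h, pow_one]
    have hij : i = j := by
      by_contra hne
      exact (M.off_diagonal i j hne) h
    subst hij
    have := key [i, i] (by simp [CoxeterSystem.wordProd]) (by
      intro t
      have e : cs.rightInvSeq [i, i] = [cs.simple i] ++ [cs.simple i] := by
        simp [CoxeterSystem.rightInvSeq]
      rw [e, cnt_double])
    simpa using this
  · obtain ⟨h1, h3⟩ := ris_two cs h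
    have := key [i, j, i, j] h1 (by intro t; rw [h3, cnt_double])
    rw [h]
    simpa [pow_succ, mul_assoc] using this
  · obtain ⟨h1, h3⟩ := ris_three cs h
    have := key [i, j, i, j, i, j] h1 (by intro t; rw [h3, cnt_double])
    rw [h]
    simpa [pow_succ, mul_assoc] using this

/-- In a simply-laced Coxeter group, a word whose right inversion sequence has no repetitions is
reduced. -/
lemma isReduced_of_nodup (hM : ∀ i j, M i j = 1 ∨ M i j = 2 ∨ M i j = 3) {ω : List B}
    (h : (cs.rightInvSeq ω).Nodup) : cs.IsReduced ω := by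
  classical
  obtain ⟨ω', h1, h2⟩ := cs.exists_isReduced (cs.wordProd ω)
  have hη : ∀ ω : List B, cs.lift ⟨flip cs, liftable cs hM⟩ (cs.wordProd ω) =
      (ω.map (flip cs)).prod := by
    intro ω
    induction ω with
    | nil => simp
    | cons i ω ih =>
      rw [cs.wordProd_cons, map_mul, ih, List.map_cons, List.prod_cons]
      congr 1
      exact cs.lift_apply_simple (liftable cs hM) i
  have hcnt : ∀ t, cnt t (cs.rightInvSeq ω) = cnt t (cs.rightInvSeq ω') := by
    intro t
    have e := hη ω
    rw [h2, hη ω'] at e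
    have e1 := prod_flip cs ω t 0
    have e2 := prod_flip cs ω' t 0
    rw [e] at e2
    rw [e1] at e2
    simpa using congrArg Prod.snd e2
  have hsub : (cs.rightInvSeq ω).toFinset ⊆ (cs.rightInvSeq ω').toFinset := by
    intro t ht
    rw [List.mem_toFinset] at ht ⊢
    by_contra hnot
    have e := hcnt t
    have e1 : List.count t (cs.rightInvSeq ω) = 1 := List.count_eq_one_of_mem h ht
    have e2 : List.count t (cs.rightInvSeq ω') = 0 := List.count_eq_zero_of_not_mem hnot
    simp [cnt, e1, e2] at e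
  have hcard := Finset.card_le_card hsub
  rw [List.toFinset_card_of_nodup h, cs.length_rightInvSeq] at hcard
  have h3 := List.toFinset_card_le (cs.rightInvSeq ω')
  rw [cs.length_rightInvSeq] at h3
  have h4 := cs.length_wordProd_le ω
  have h5 : cs.length (cs.wordProd ω) = ω'.length := by rw [h2]; exact h1
  unfold CoxeterSystem.IsReduced
  omega

end Words

section Reflections

open scoped Classical

variable {V : Type*} [Fintype V] (G : SimpleGraph V)

/-- sum over the neighbours -/
noncomputable def nb (i : V) (x : V → ℤ) : ℤ := ∑ j with G.Adj i j, x j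

lemma nb_update_of_not_adj {i j : V} (h : ¬ G.Adj i j) (x : V → ℤ) (c : ℤ) :
    nb G i (Function.update x j c) = nb G i x := by
  unfold nb
  apply Finset.sum_congr rfl
  intro l hl
  rw [Finset.mem_filter] at hl
  rw [Function.update_of_ne]
  rintro rfl
  exact h hl.2

lemma nb_update_of_adj {i j : V} (h : G.Adj i j) (x : V → ℤ) (c : ℤ) :
    nb G i (Function.update x j c) = nb G i x - x j + c := by
  unfold nb
  have hj : j ∈ Finset.univ.filter (fun l => G.Adj i l) := by simp [h]
  rw [← Finset.add_sum_erase _ _ hj, ← Finset.add_sum_erase (a := j) _ (fun l => x l) hj]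
  have : ∑ l ∈ (Finset.univ.filter (fun l => G.Adj i l)).erase j, Function.update x j c l =
      ∑ l ∈ (Finset.univ.filter (fun l => G.Adj i l)).erase j, x l := by
    apply Finset.sum_congr rfl
    intro l hl
    rw [Finset.mem_erase] at hl
    rw [Function.update_of_ne hl.1]
  rw [this]
  simp only [Function.update_self]
  ring

/-- the simple reflection acting on integral vectors -/
noncomputable def rf (i : V) (x : V → ℤ) : V → ℤ := Function.update x i (nb G i x - x i)

lemma rf_rf (i : V) (x : V → ℤ) : rf G i (rf G i x) = x := by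
  unfold rf
  rw [nb_update_of_not_adj G (G.loopless.irrefl i)]
  simp

lemma rf_comm {i j : V} (hij : i ≠ j) (h : ¬ G.Adj i j) (x : V → ℤ) :
    rf G i (rf G j x) = rf G j (rf G i x) := by
  have h' : ¬ G.Adj j i := fun h2 => h h2.symm
  unfold rf
  rw [nb_update_of_not_adj G h, nb_update_of_not_adj G h', Function.update_of_ne hij,
    Function.update_of_ne hij.symm]
  exact (Function.update_comm hij _ _ _).symm

lemma rf_braid {i j : V} (h : G.Adj i j) (x : V → ℤ) :
    rf G i (rf G j (rf G i x)) = rf G j (rf G i (rf G j x)) := by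
  have hij : i ≠ j := h.ne
  have hi : ¬ G.Adj i i := G.loopless.irrefl i
  have hj : ¬ G.Adj j j := G.loopless.irrefl j
  unfold rf
  simp only [nb_update_of_adj G h, nb_update_of_adj G h.symm, nb_update_of_not_adj G hi,
    nb_update_of_not_adj G hj, Function.update_self, Function.update_of_ne hij,
    Function.update_of_ne hij.symm]
  ext v
  by_cases hv : v = i
  · subst hv
    simp only [Function.update_self, Function.update_of_ne hij]
    ring
  · by_cases hv' : v = j
    · subst hv'
      simp only [Function.update_self, Function.update_of_ne hij.symm]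
      ring
    · simp [Function.update_of_ne hv, Function.update_of_ne hv']

/-- the simple reflection as a permutation -/
noncomputable def rfp (i : V) : Equiv.Perm (V → ℤ) where
  toFun := rf G i
  invFun := rf G i
  left_inv := rf_rf G i
  right_inv := rf_rf G i

lemma rfp_mul_self (i : V) : rfp G i * rfp G i = 1 := by
  ext x : 1
  exact rf_rf G i x

lemma rfp_two {i j : V} (hij : i ≠ j) (h : ¬ G.Adj i j) : (rfp G i * rfp G j) ^ 2 = 1 := by
  have hc : rfp G i * rfp G j = rfp G j * rfp G i := by
    ext x : 1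
    exact rf_comm G hij h x
  rw [pow_two]
  nth_rewrite 1 [hc]
  rw [mul_assoc, ← mul_assoc (rfp G i), rfp_mul_self, one_mul, rfp_mul_self]

lemma rfp_three {i j : V} (h : G.Adj i j) : (rfp G i * rfp G j) ^ 3 = 1 := by
  have hb : rfp G i * rfp G j * rfp G i = rfp G j * rfp G i * rfp G j := by
    ext x : 1
    exact rf_braid G h x
  have : (rfp G i * rfp G j) ^ 3 = (rfp G i * rfp G j * rfp G i) * (rfp G j * rfp G i * rfp G j) := by
    simp [pow_succ, mul_assoc]
  rw [this, ← hb]
  have e : ∀ y, rfp G i * (rfp G i * y) = y := by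
    intro y; rw [← mul_assoc, rfp_mul_self, one_mul]
  have e' : ∀ y, rfp G j * (rfp G j * y) = y := by
    intro y; rw [← mul_assoc, rfp_mul_self, one_mul]
  simp only [mul_assoc, e, e', rfp_mul_self]

/-- a vector supported on three vertices -/
noncomputable def vec (a b c : V) (α β γ : ℤ) : V → ℤ :=
  fun v => if v = a then α else if v = b then β else if v = c then γ else 0

variable {a b c : V} (hab : G.Adj a b) (hbc : G.Adj b c) (hac : a ≠ c) (hnac : ¬ G.Adj a c)

include hab hbc hac hnac

lemma rf_a (α β γ : ℤ) : rf G a (vec a b c α β γ) = vec a b c (β - α) β γ := by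
  have hne : b ≠ a := hab.ne.symm
  have h1 : nb G a (vec a b c α β γ) = β := by
    unfold nb
    rw [Finset.sum_eq_single b]
    · simp [vec, hne]
    · intro v hv hvb
      rw [Finset.mem_filter] at hv
      have h1 : v ≠ a := hv.2.ne.symm
      have h2 : v ≠ c := by rintro rfl; exact hnac hv.2
      simp [vec, h1, h2, hvb]
    · intro h
      simp [hab] at h
  unfold rf
  rw [h1]
  ext v
  by_cases hv : v = a
  · subst hv; simp [vec]
  · simp [Function.update_of_ne hv, vec, hv]

lemma rf_b (α β γ : ℤ) : rf G b (vec a b c α β γ) = vec a b c α (α + γ - β) γ := by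
  have hne : b ≠ a := hab.ne.symm
  have hne2 : b ≠ c := hbc.ne
  have h1 : nb G b (vec a b c α β γ) = α + γ := by
    unfold nb
    have hsub : ({a, c} : Finset V) ⊆ Finset.univ.filter (fun j => G.Adj b j) := by
      intro v hv
      simp only [Finset.mem_insert, Finset.mem_singleton] at hv
      rcases hv with rfl | rfl
      · simp [hab.symm]
      · simp [hbc]
    rw [← Finset.sum_subset hsub]
    · rw [Finset.sum_pair hac]
      simp [vec, hac.symm, hne2.symm]
    · intro v hv hv2
      rw [Finset.mem_filter] at hv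
      simp only [Finset.mem_insert, Finset.mem_singleton, not_or] at hv2
      have h1 : v ≠ b := hv.2.ne.symm
      simp [vec, h1, hv2.1, hv2.2]
  unfold rf
  rw [h1]
  ext v
  by_cases hv : v = b
  · subst hv; simp [vec, hne]
  · by_cases hv2 : v = a
    · subst hv2; simp [Function.update_of_ne hv, vec]
    · simp [Function.update_of_ne hv, vec, hv, hv2]

lemma rf_c (α β γ : ℤ) : rf G c (vec a b c α β γ) = vec a b c α β (β - γ) := by
  have hne : b ≠ a := hab.ne.symm
  have hne2 : b ≠ c := hbc.ne
  have h1 : nb G c (vec a b c α β γ) = β := by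
    unfold nb
    rw [Finset.sum_eq_single b]
    · simp [vec, hne]
    · intro v hv hvb
      rw [Finset.mem_filter] at hv
      have h1 : v ≠ c := hv.2.ne.symm
      have h2 : v ≠ a := by rintro rfl; exact hnac hv.2.symm
      simp [vec, h1, h2, hvb]
    · intro h
      simp [hbc.symm] at h
  unfold rf
  rw [h1]
  ext v
  by_cases hv : v = c
  · subst hv; simp [vec, hac.symm, hne2.symm]
  · by_cases hv2 : v = a
    · subst hv2; simp [Function.update_of_ne hv, vec]
    · by_cases hv3 : v = b
      · subst hv3; simp [Function.update_of_ne hv, vec, hne]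
      · simp [Function.update_of_ne hv, vec, hv, hv2, hv3]

end Reflections

/-! ### Computations in the preprojective algebra -/

section Computations

variable {V : Type v} (Q : OrientedGraph V) (k : Type u) [Field k] [Fintype V]

/-- an arrow of the double quiver as an element of the preprojective algebra -/
noncomputable def xx (d : Q.graph.Dart) : Prep Q k := proj Q k (fx Q k d)

lemma rel_eq {p q : FreeAlgebra k (Gen Q)} (h : Rel Q k p q) : proj Q k p = proj Q k q :=
  RingQuot.mkAlgHom_rel k h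

lemma e_mul_self (i : V) : e Q k i * e Q k i = e Q k i := by
  have := rel_eq Q k (Rel.idem i)
  rwa [map_mul] at this

lemma e_mul_ne {i j : V} (h : i ≠ j) : e Q k i * e Q k j = 0 := by
  have := rel_eq Q k (Rel.orth i j h)
  rwa [map_mul, map_zero] at this

lemma e_mul_x (d : Q.graph.Dart) : e Q k d.fst * xx Q k d = xx Q k d := by
  have := rel_eq Q k (Rel.left d)
  rwa [map_mul] at this

lemma x_mul_e (d : Q.graph.Dart) : xx Q k d * e Q k d.snd = xx Q k d := by
  have := rel_eq Q k (Rel.right d)
  rwa [map_mul] at this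

lemma e_mul_x_ne {i : V} {d : Q.graph.Dart} (h : i ≠ d.fst) : e Q k i * xx Q k d = 0 := by
  rw [← e_mul_x, ← mul_assoc, e_mul_ne Q k h, zero_mul]

lemma x_mul_e_ne {i : V} {d : Q.graph.Dart} (h : d.snd ≠ i) : xx Q k d * e Q k i = 0 := by
  rw [← x_mul_e, mul_assoc, e_mul_ne Q k h, mul_zero]

lemma x_mul_x_ne {d d' : Q.graph.Dart} (h : d.snd ≠ d'.fst) : xx Q k d * xx Q k d' = 0 := by
  rw [← x_mul_e, mul_assoc, e_mul_x_ne Q k h, mul_zero]

open scoped Classical in
lemma preproj_rel : ∑ d : Q.graph.Dart with Q.arrow d.fst d.snd,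
    (xx Q k d * xx Q k d.symm - xx Q k d.symm * xx Q k d) = 0 := by
  have := rel_eq Q k (Rel.preproj (Q := Q) (k := k))
  rw [map_sum, map_zero] at this
  rw [← this]
  apply Finset.sum_congr rfl
  intro d _
  rw [map_sub, map_mul, map_mul]
  rfl

/-- At each vertex `i` the preprojective relation expresses one of the loops `d d*` with
`d.fst = i` by the others. -/
lemma vertex_rel (K : AddSubgroup (Prep Q k)) (d0 : Q.graph.Dart)
    (h : ∀ d : Q.graph.Dart, d.fst = d0.fst → d ≠ d0 → xx Q k d * xx Q k d.symm ∈ K) :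
    xx Q k d0 * xx Q k d0.symm ∈ K := by
  classical
  have hr := congrArg (fun z => e Q k d0.fst * z) (preproj_rel Q k)
  simp only [mul_zero, Finset.mul_sum] at hr
  have hne : ∀ d : Q.graph.Dart, d.fst ≠ d.snd := fun d => d.adj.ne
  have hmem : ∀ d : Q.graph.Dart, d ≠ d0 → d ≠ d0.symm →
      e Q k d0.fst * (xx Q k d * xx Q k d.symm - xx Q k d.symm * xx Q k d) ∈ K := by
    intro d h1 h2
    rw [mul_sub]
    apply K.sub_mem
    · by_cases hd : d.fst = d0.fst
      · rw [← mul_assoc, ← hd, e_mul_x]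
        exact h d hd h1
      · rw [← mul_assoc, e_mul_x_ne Q k (Ne.symm hd), zero_mul]
        exact K.zero_mem
    · by_cases hd : d.snd = d0.fst
      · have hs : d.symm.fst = d0.fst := hd
        rw [← mul_assoc, ← hs, e_mul_x]
        have := h d.symm hs (by
          intro h3
          apply h2
          rw [← h3, SimpleGraph.Dart.symm_symm])
        rwa [SimpleGraph.Dart.symm_symm] at this
      · rw [← mul_assoc, e_mul_x_ne Q k (d := d.symm) (fun h4 => hd h4.symm), zero_mul]
        exact K.zero_mem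
  rcases d0.adj with hd0 | hd0
  · have hin : d0 ∈ Finset.univ.filter (fun d : Q.graph.Dart => Q.arrow d.fst d.snd) := by
      simpa using hd0
    rw [← Finset.add_sum_erase _ _ hin] at hr
    have h1 : e Q k d0.fst * (xx Q k d0 * xx Q k d0.symm - xx Q k d0.symm * xx Q k d0) =
        xx Q k d0 * xx Q k d0.symm := by
      rw [mul_sub, ← mul_assoc, e_mul_x, ← mul_assoc (e Q k d0.fst) (xx Q k d0.symm),
        e_mul_x_ne Q k (d := d0.symm) (hne d0), zero_mul, sub_zero]
    rw [h1] at hr
    rw [eq_neg_of_add_eq_zero_left hr]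
    apply K.neg_mem
    apply K.sum_mem
    intro d hd
    rw [Finset.mem_erase, Finset.mem_filter] at hd
    apply hmem d hd.1
    rintro rfl
    exact Q.asymm _ _ hd0 hd.2.2
  · have hin : d0.symm ∈ Finset.univ.filter (fun d : Q.graph.Dart => Q.arrow d.fst d.snd) := by
      simpa using hd0
    rw [← Finset.add_sum_erase _ _ hin] at hr
    have h1 : e Q k d0.fst * (xx Q k d0.symm * xx Q k d0.symm.symm -
        xx Q k d0.symm.symm * xx Q k d0.symm) = -(xx Q k d0 * xx Q k d0.symm) := by
      rw [mul_sub, ← mul_assoc, e_mul_x_ne Q k (d := d0.symm) (hne d0), zero_mul,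
        SimpleGraph.Dart.symm_symm, ← mul_assoc, e_mul_x, zero_sub]
    rw [h1] at hr
    have h2 := eq_neg_of_add_eq_zero_left hr
    rw [neg_inj] at h2
    rw [h2]
    apply K.sum_mem
    intro d hd
    rw [Finset.mem_erase, Finset.mem_filter] at hd
    apply hmem d _ hd.1
    rintro rfl
    exact Q.asymm _ _ hd0 hd.2.2

/-- induction principle for the preprojective algebra -/
lemma prep_induction {C : Prep Q k → Prop} (hc : ∀ c : k, C (algebraMap k _ c))
    (he : ∀ i, C (e Q k i)) (hx : ∀ d, C (xx Q k d)) (hmul : ∀ a b, C a → C b → C (a * b))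
    (hadd : ∀ a b, C a → C b → C (a + b)) (z : Prep Q k) : C z := by
  obtain ⟨z, rfl⟩ := RingQuot.mkAlgHom_surjective k (Rel Q k) z
  change C (proj Q k z)
  induction z using FreeAlgebra.induction with
  | grade0 r => rw [AlgHom.commutes]; exact hc r
  | grade1 x =>
    rcases x with i | d
    · exact he i
    · exact hx d
  | mul a b ha hb => rw [map_mul]; exact hmul _ _ ha hb
  | add a b ha hb => rw [map_add]; exact hadd _ _ ha hb

lemma right_closure (U : Submodule k (Prep Q k)) (he : ∀ i, ∀ z ∈ U, z * e Q k i ∈ U)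
    (hx : ∀ d, ∀ z ∈ U, z * xx Q k d ∈ U) (y : Prep Q k) : ∀ z ∈ U, z * y ∈ U := by
  induction y using prep_induction with
  | hc c =>
    intro z hz
    rw [← Algebra.commutes, ← Algebra.smul_def]
    exact U.smul_mem c hz
  | he i => exact he i
  | hx d => exact hx d
  | hmul a b ha hb =>
    intro z hz
    rw [← mul_assoc]
    exact hb _ (ha z hz)
  | hadd a b ha hb =>
    intro z hz
    rw [mul_add]
    exact U.add_mem (ha z hz) (hb z hz)

variable {Q k}

lemma mul_right_mem {J : Submodule (Prep Q k)ᵐᵒᵖ (Prep Q k)} {z : Prep Q k} (hz : z ∈ J)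
    (y : Prep Q k) : z * y ∈ J := J.smul_mem (op y) hz

lemma mul_mem_prod {I : TwoSidedIdeal (Prep Q k)} {J : Submodule (Prep Q k)ᵐᵒᵖ (Prep Q k)}
    {x y : Prep Q k} (hx : x ∈ I) (hy : y ∈ J) : x * y ∈ prodIdeal Q k I J :=
  Submodule.subset_span ⟨x, hx, y, hy, rfl⟩

lemma prod_induction {I : TwoSidedIdeal (Prep Q k)} {J : Submodule (Prep Q k)ᵐᵒᵖ (Prep Q k)}
    {C : Prep Q k → Prop} (hmul : ∀ x ∈ I, ∀ y ∈ J, C (x * y)) (h0 : C 0)
    (hadd : ∀ a b, C a → C b → C (a + b)) (hr : ∀ a y, C a → C (a * y)) {z : Prep Q k}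
    (hz : z ∈ prodIdeal Q k I J) : C z := by
  unfold prodIdeal at hz
  induction hz using Submodule.span_induction with
  | mem x hx =>
    obtain ⟨s, hs, t, ht, rfl⟩ := hx
    exact hmul s hs t ht
  | zero => exact h0
  | add a b _ _ ha hb => exact hadd a b ha hb
  | smul a x _ hx => exact hr x a.unop hx

/-- the right ideal is two-sided -/
def Nice (J : Submodule (Prep Q k)ᵐᵒᵖ (Prep Q k)) : Prop := ∀ x, ∀ y ∈ J, x * y ∈ J

/-- the right ideal contains the two-sided ideal generated by an idempotent -/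
def Abs (v : V) (J : Submodule (Prep Q k)ᵐᵒᵖ (Prep Q k)) : Prop :=
  ∀ x y, x * e Q k v * y ∈ J

lemma nice_top : Nice (⊤ : Submodule (Prep Q k)ᵐᵒᵖ (Prep Q k)) := fun _ _ _ => trivial

lemma abs_top (v : V) : Abs v (⊤ : Submodule (Prep Q k)ᵐᵒᵖ (Prep Q k)) := fun _ _ => trivial

lemma Nice.prod {J : Submodule (Prep Q k)ᵐᵒᵖ (Prep Q k)} (hJ : Nice J)
    (I : TwoSidedIdeal (Prep Q k)) : Nice (prodIdeal Q k I J) := by
  intro x y hy
  refine prod_induction (C := fun y => x * y ∈ prodIdeal Q k I J) ?_ ?_ ?_ ?_ hy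
  · intro s hs t ht
    rw [← mul_assoc]
    exact mul_mem_prod (I.mul_mem_left _ _ hs) ht
  · rw [mul_zero]; exact Submodule.zero_mem _
  · intro a b ha hb; rw [mul_add]; exact Submodule.add_mem _ ha hb
  · intro a y ha; rw [← mul_assoc]; exact mul_right_mem ha y

lemma Nice.prod_le {J : Submodule (Prep Q k)ᵐᵒᵖ (Prep Q k)} (hJ : Nice J)
    (I : TwoSidedIdeal (Prep Q k)) : prodIdeal Q k I J ≤ J := by
  intro z hz
  refine prod_induction (C := fun y => y ∈ J) ?_ ?_ ?_ ?_ hz
  · intro s hs t ht; exact hJ s t ht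
  · exact Submodule.zero_mem _
  · intro a b ha hb; exact Submodule.add_mem _ ha hb
  · intro a y ha; exact mul_right_mem ha y

lemma one_sub_mem_idl (i : V) : 1 - e Q k i ∈ idl Q k i :=
  TwoSidedIdeal.subset_span rfl

lemma e_mem_idl {i j : V} (h : j ≠ i) : e Q k j ∈ idl Q k i := by
  have : e Q k j = e Q k j * (1 - e Q k i) := by
    rw [mul_sub, e_mul_ne Q k h, mul_one, sub_zero]
  rw [this]
  exact (idl Q k i).mul_mem_left _ _ (one_sub_mem_idl i)

lemma x_mem_idl_fst {d : Q.graph.Dart} {i : V} (h : d.fst ≠ i) : xx Q k d ∈ idl Q k i := by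
  rw [← e_mul_x]
  exact (idl Q k i).mul_mem_right _ _ (e_mem_idl h)

lemma x_mem_idl_snd {d : Q.graph.Dart} {i : V} (h : d.snd ≠ i) : xx Q k d ∈ idl Q k i := by
  rw [← x_mul_e]
  exact (idl Q k i).mul_mem_left _ _ (e_mem_idl h)

lemma Abs.prod {v : V} {J : Submodule (Prep Q k)ᵐᵒᵖ (Prep Q k)} (hJ : Abs v J) {i : V}
    (h : v ≠ i) : Abs v (prodIdeal Q k (idl Q k i) J) := by
  intro x y
  have : x * e Q k v * y = (x * e Q k v) * (1 * e Q k v * y) := by
    rw [one_mul, mul_assoc x, mul_assoc x, ← mul_assoc (e Q k v), e_mul_self]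
  rw [this]
  exact mul_mem_prod ((idl Q k i).mul_mem_left _ _ (e_mem_idl h)) (hJ 1 y)

lemma sub_e_mul_mem {J : Submodule (Prep Q k)ᵐᵒᵖ (Prep Q k)} (i : V) {x : Prep Q k}
    (hx : x ∈ J) : x - e Q k i * x ∈ prodIdeal Q k (idl Q k i) J := by
  have : x - e Q k i * x = (1 - e Q k i) * x := by rw [sub_mul, one_mul]
  rw [this]
  exact mul_mem_prod (one_sub_mem_idl i) hx

/-- elements `e_p x` modulo a two-sided ideal containing all idempotents outside a path
`p - q - r` -/
lemma path_span {p q r : V} (hpq : Q.graph.Adj p q) (hqr : Q.graph.Adj q r) (hpr : p ≠ r)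
    (hnpr : ¬ Q.graph.Adj p r) {J : Submodule (Prep Q k)ᵐᵒᵖ (Prep Q k)} (hJ : Nice J)
    (hA : ∀ v, v ≠ p → v ≠ q → v ≠ r → Abs v J) (x : Prep Q k) :
    ∃ α β γ : k, e Q k p * x - (α • e Q k p + β • xx Q k ⟨(p, q), hpq⟩ +
      γ • (xx Q k ⟨(p, q), hpq⟩ * xx Q k ⟨(q, r), hqr⟩)) ∈ J := by
  set X := xx Q k ⟨(p, q), hpq⟩ with hX
  set Y := xx Q k ⟨(q, r), hqr⟩ with hY
  have hpq' : p ≠ q := hpq.ne
  have hqr' : q ≠ r := hqr.ne
  set U : Submodule k (Prep Q k) :=
    Submodule.span k {e Q k p, X, X * Y} ⊔ J.restrictScalars k with hU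
  have hJU : ∀ z, z ∈ J → z ∈ U := fun z hz =>
    (le_sup_right : _ ≤ U) hz
  have hS : ∀ z ∈ ({e Q k p, X, X * Y} : Set (Prep Q k)), z ∈ U := fun z hz =>
    (le_sup_left : _ ≤ U) (Submodule.subset_span hz)
  have hdart : ∀ (d : Q.graph.Dart) (u w : V) (h : Q.graph.Adj u w), d.fst = u → d.snd = w →
      d = ⟨(u, w), h⟩ := by
    rintro ⟨⟨d1, d2⟩, hd⟩ u w h rfl rfl
    rfl
  have habs : ∀ d : Q.graph.Dart, d.snd ≠ p → d.snd ≠ q → d.snd ≠ r → ∀ z y,
      z * xx Q k d * y ∈ J := by
    intro d h1 h2 h3 z y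
    have := hA d.snd h1 h2 h3 (z * xx Q k d) y
    rwa [mul_assoc z, x_mul_e] at this
  -- the loops
  have hT1 : X * xx Q k ⟨(q, p), hpq.symm⟩ ∈ J := by
    have := vertex_rel Q k J.toAddSubgroup ⟨(p, q), hpq⟩ (by
      intro d hd1 hd2
      have h1 : d.fst = p := hd1
      have := habs d (by intro h; exact d.adj.ne (h1.trans h.symm))
        (by intro h; exact hd2 (hdart d p q hpq h1 h))
        (by intro h; apply hnpr; have := d.adj; rw [h1, h] at this; exact this) 1
        (xx Q k d.symm)
      rwa [one_mul] at this)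
    exact this
  have hT2 : X * (Y * xx Q k ⟨(r, q), hqr.symm⟩) ∈ J := by
    have := vertex_rel Q k (J.toAddSubgroup.comap (AddMonoidHom.mulLeft X)) ⟨(q, r), hqr⟩ (by
      intro d hd1 hd2
      have h1 : d.fst = q := hd1
      change X * (xx Q k d * xx Q k d.symm) ∈ J
      rw [← mul_assoc]
      by_cases h2 : d.snd = p
      · rw [hdart d q p hpq.symm h1 h2]
        exact mul_right_mem hT1 _
      · exact habs d h2 (by intro h; exact d.adj.ne (h1.trans h.symm))
          (by intro h; exact hd2 (hdart d q r hqr h1 h)) X (xx Q k d.symm))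
    exact this
  have hmem : e Q k p * x ∈ U := by
    refine right_closure Q k U ?_ ?_ x _ (hS _ (by simp))
    · intro v
      have : U ≤ U.comap (LinearMap.mulRight k (e Q k v)) := by
        rw [hU]
        apply sup_le
        · rw [Submodule.span_le]
          intro z hz
          simp only [Set.mem_insert_iff, Set.mem_singleton_iff] at hz
          rw [SetLike.mem_coe, Submodule.mem_comap, LinearMap.mulRight_apply, ← hU]
          rcases hz with rfl | rfl | rfl
          · by_cases h : p = v
            · subst h; rw [e_mul_self]; exact hS _ (by simp)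
            · rw [e_mul_ne Q k h]; exact U.zero_mem
          · by_cases h : q = v
            · subst h
              have : X * e Q k q = X := x_mul_e Q k ⟨(p, q), hpq⟩
              rw [this]; exact hS _ (by simp)
            · have : X * e Q k v = 0 := x_mul_e_ne Q k (d := ⟨(p, q), hpq⟩) h
              rw [this]; exact U.zero_mem
          · rw [mul_assoc]
            by_cases h : r = v
            · subst h
              have : Y * e Q k r = Y := x_mul_e Q k ⟨(q, r), hqr⟩
              rw [this]; exact hS _ (by simp)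
            · have : Y * e Q k v = 0 := x_mul_e_ne Q k (d := ⟨(q, r), hqr⟩) h
              rw [this, mul_zero]; exact U.zero_mem
        · intro z hz
          rw [Submodule.mem_comap, LinearMap.mulRight_apply]
          exact hJU _ (mul_right_mem (J := J) hz _)
      exact fun z hz => this hz
    · intro d
      have : U ≤ U.comap (LinearMap.mulRight k (xx Q k d)) := by
        rw [hU]
        apply sup_le
        · rw [Submodule.span_le]
          intro z hz
          simp only [Set.mem_insert_iff, Set.mem_singleton_iff] at hz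
          rw [SetLike.mem_coe, Submodule.mem_comap, LinearMap.mulRight_apply, ← hU]
          rcases hz with rfl | rfl | rfl
          · by_cases h : p = d.fst
            · by_cases h2 : d.snd = q
              · rw [hdart d p q hpq h.symm h2, ← hX]
                have : e Q k p * X = X := e_mul_x Q k ⟨(p, q), hpq⟩
                rw [this]; exact hS _ (by simp)
              · apply hJU
                have := habs d (by intro h3; exact d.adj.ne (h.symm.trans h3.symm)) h2
                  (by intro h3; apply hnpr; have := d.adj; rw [← h, h3] at this; exact this)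
                  (e Q k p) 1
                rwa [mul_one] at this
            · rw [e_mul_x_ne Q k h]; exact U.zero_mem
          · by_cases h : q = d.fst
            · by_cases h2 : d.snd = r
              · rw [hdart d q r hqr h.symm h2, ← hY]
                exact hS _ (by simp)
              · by_cases h3 : d.snd = p
                · rw [hdart d q p hpq.symm h.symm h3]
                  exact hJU _ hT1
                · apply hJU
                  have := habs d h3 (by intro h4; exact d.adj.ne (h.symm.trans h4.symm)) h2 X 1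
                  rwa [mul_one] at this
            · have : X * xx Q k d = 0 := x_mul_x_ne Q k (d := ⟨(p, q), hpq⟩) h
              rw [this]; exact U.zero_mem
          · by_cases h : r = d.fst
            · by_cases h2 : d.snd = q
              · rw [hdart d r q hqr.symm h.symm h2, mul_assoc]
                exact hJU _ hT2
              · apply hJU
                have := habs d (by
                    intro h3; apply hnpr; have := d.adj.symm; rw [← h, h3] at this; exact this)
                  h2 (by intro h4; exact d.adj.ne (h.symm.trans h4.symm)) (X * Y) 1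
                rwa [mul_one] at this
            · have : Y * xx Q k d = 0 := x_mul_x_ne Q k (d := ⟨(q, r), hqr⟩) h
              rw [mul_assoc, this, mul_zero]; exact U.zero_mem
        · intro z hz
          rw [Submodule.mem_comap, LinearMap.mulRight_apply]
          exact hJU _ (mul_right_mem (J := J) hz _)
      exact fun z hz => this hz
  rw [hU, Submodule.mem_sup] at hmem
  obtain ⟨s, hs, j, hj, hsum⟩ := hmem
  rw [Submodule.mem_span_triple] at hs
  obtain ⟨α, β, γ, rfl⟩ := hs
  refine ⟨α, β, γ, ?_⟩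
  rw [← hsum, add_sub_cancel_left]
  exact hj

end Computations

/-! ### A three-dimensional uniserial module -/

section Representation

open Matrix

variable {V : Type v} (Q : OrientedGraph V) (k : Type u) [Field k] [Fintype V]

open scoped Classical in
/-- the images of the generators -/
noncomputable def repGen (p q r : V) : Gen Q → Matrix (Fin 3) (Fin 3) k
  | Sum.inl v => (if v = p then Matrix.single 0 0 1 else 0) +
      (if v = q then Matrix.single 1 1 1 else 0) + (if v = r then Matrix.single 2 2 1 else 0)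
  | Sum.inr d => if d.fst = p ∧ d.snd = q then Matrix.single 0 1 1
      else if d.fst = q ∧ d.snd = r then Matrix.single 1 2 1 else 0

open scoped Classical in
lemma repGen_rel {p q r : V} (hpq : p ≠ q) (hqr : q ≠ r) (hpr : p ≠ r)
    {x y : FreeAlgebra k (Gen Q)} (h : Rel Q k x y) :
    FreeAlgebra.lift k (repGen Q k p q r) x = FreeAlgebra.lift k (repGen Q k p q r) y := by
  have hfe : ∀ i, FreeAlgebra.lift k (repGen Q k p q r) (fe Q k i) =
      repGen Q k p q r (Sum.inl i) := fun i => by simp [fe]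
  have hfx : ∀ d, FreeAlgebra.lift k (repGen Q k p q r) (fx Q k d) =
      repGen Q k p q r (Sum.inr d) := fun d => by simp [fx]
  induction h with
  | idem i =>
    rw [map_mul, hfe]
    simp only [repGen]
    by_cases h1 : i = p
    · subst h1; simp [hpq, hpr]
    · by_cases h2 : i = q
      · subst h2; simp [h1, hqr]
      · by_cases h3 : i = r
        · subst h3; simp [h1, h2]
        · simp [h1, h2, h3]
  | orth i j hij =>
    rw [map_mul, hfe, hfe, map_zero]
    simp only [repGen]
    by_cases h1 : i = p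
    · subst h1
      simp only [hpq, hpr, hij.symm, if_true, if_false, zero_add, add_zero]
      by_cases h2 : j = q
      · subst h2; simp [hqr]
      · by_cases h3 : j = r
        · subst h3; simp [h2]
        · simp [h2, h3]
    · by_cases h2 : i = q
      · subst h2
        simp only [h1, hqr, hij.symm, if_true, if_false, zero_add, add_zero]
        by_cases h2 : j = p
        · subst h2; simp [hpr]
        · by_cases h3 : j = r
          · subst h3; simp [h2]
          · simp [h2, h3]
      · by_cases h3 : i = r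
        · subst h3
          simp only [h1, h2, hij.symm, if_true, if_false, zero_add, add_zero]
          by_cases h4 : j = p
          · subst h4; simp [hpq]
          · by_cases h5 : j = q
            · subst h5; simp [h4]
            · simp [h4, h5]
        · simp [h1, h2, h3]
  | one =>
    rw [map_sum, map_one]
    simp only [hfe, repGen, Finset.sum_add_distrib, Finset.sum_ite_eq', Finset.mem_univ, if_true]
    ext i j
    fin_cases i <;> fin_cases j <;> simp
  | left d =>
    rw [map_mul, hfe, hfx]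
    simp only [repGen]
    by_cases h1 : d.fst = p ∧ d.snd = q
    · simp [h1, hpq, hpr]
    · by_cases h2 : d.fst = q ∧ d.snd = r
      · simp [h2, hqr, hpq.symm]
      · simp [h1, h2]
  | right d =>
    rw [map_mul, hfe, hfx]
    simp only [repGen]
    by_cases h1 : d.fst = p ∧ d.snd = q
    · simp [h1, hpq.symm, hqr]
    · by_cases h2 : d.fst = q ∧ d.snd = r
      · simp [h2, hqr.symm, hpr.symm, hpq.symm]
      · simp [h1, h2]
  | preproj =>
    rw [map_sum, map_zero]
    have key : ∀ d : Q.graph.Dart, repGen Q k p q r (Sum.inr d) *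
        repGen Q k p q r (Sum.inr d.symm) = 0 := by
      intro d
      simp only [repGen, SimpleGraph.Dart.symm, Prod.fst_swap, Prod.snd_swap]
      by_cases h1 : d.fst = p ∧ d.snd = q
      · simp [h1.1, h1.2, hpq.symm, hpr]
      · by_cases h2 : d.fst = q ∧ d.snd = r
        · simp [h2.1, h2.2, hqr.symm, hpr.symm, hpq.symm]
        · simp [h1, h2]
    apply Finset.sum_eq_zero
    intro d _
    rw [map_sub, map_mul, map_mul, hfx, hfx, key d]
    have := key d.symm
    rw [SimpleGraph.Dart.symm_symm] at this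
    rw [this, sub_zero]

/-- the representation `p → q → r` -/
noncomputable def rep {p q r : V} (hpq : p ≠ q) (hqr : q ≠ r) (hpr : p ≠ r) :
    Prep Q k →ₐ[k] Matrix (Fin 3) (Fin 3) k :=
  RingQuot.liftAlgHom k ⟨FreeAlgebra.lift k (repGen Q k p q r),
    fun _ _ h => repGen_rel Q k hpq hqr hpr h⟩

variable {p q r : V} (hpq : p ≠ q) (hqr : q ≠ r) (hpr : p ≠ r)

lemma rep_proj (x : FreeAlgebra k (Gen Q)) :
    rep Q k hpq hqr hpr (proj Q k x) = FreeAlgebra.lift k (repGen Q k p q r) x := by
  exact RingQuot.liftAlgHom_mkAlgHom_apply k _ _ x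

lemma rep_e (i : V) : rep Q k hpq hqr hpr (e Q k i) = repGen Q k p q r (Sum.inl i) := by
  unfold e
  rw [rep_proj]
  simp [fe]

lemma rep_x (d : Q.graph.Dart) :
    rep Q k hpq hqr hpr (xx Q k d) = repGen Q k p q r (Sum.inr d) := by
  unfold xx
  rw [rep_proj]
  simp [fx]

lemma rep_upper (z : Prep Q k) : (rep Q k hpq hqr hpr z) 1 0 = 0 ∧
    (rep Q k hpq hqr hpr z) 2 0 = 0 ∧ (rep Q k hpq hqr hpr z) 2 1 = 0 := by
  classical
  induction z using prep_induction with
  | hc c => simp [Matrix.algebraMap_matrix_apply]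
  | he i =>
    rw [rep_e]
    simp only [repGen]
    refine ⟨?_, ?_, ?_⟩ <;>
      · simp only [Matrix.add_apply]
        split_ifs <;> simp
  | hx d =>
    rw [rep_x]
    simp only [repGen]
    refine ⟨?_, ?_, ?_⟩ <;>
      · split_ifs <;> simp
  | hmul a b ha hb =>
    simp only [map_mul, Matrix.mul_apply, Fin.sum_univ_three, ha.1, ha.2.1, ha.2.2, hb.1, hb.2.1,
      hb.2.2]
    simp
  | hadd a b ha hb =>
    simp only [map_add, Matrix.add_apply, ha.1, ha.2.1, ha.2.2, hb.1, hb.2.1, hb.2.2]
    simp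

lemma rep_mul_entries (a b : Prep Q k) :
    (rep Q k hpq hqr hpr (a * b)) 0 0 =
      (rep Q k hpq hqr hpr a) 0 0 * (rep Q k hpq hqr hpr b) 0 0 ∧
    (rep Q k hpq hqr hpr (a * b)) 1 1 =
      (rep Q k hpq hqr hpr a) 1 1 * (rep Q k hpq hqr hpr b) 1 1 ∧
    (rep Q k hpq hqr hpr (a * b)) 2 2 =
      (rep Q k hpq hqr hpr a) 2 2 * (rep Q k hpq hqr hpr b) 2 2 ∧
    (rep Q k hpq hqr hpr (a * b)) 0 1 =
      (rep Q k hpq hqr hpr a) 0 0 * (rep Q k hpq hqr hpr b) 0 1 +
      (rep Q k hpq hqr hpr a) 0 1 * (rep Q k hpq hqr hpr b) 1 1 ∧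
    (rep Q k hpq hqr hpr (a * b)) 1 2 =
      (rep Q k hpq hqr hpr a) 1 1 * (rep Q k hpq hqr hpr b) 1 2 +
      (rep Q k hpq hqr hpr a) 1 2 * (rep Q k hpq hqr hpr b) 2 2 ∧
    (rep Q k hpq hqr hpr (a * b)) 0 2 =
      (rep Q k hpq hqr hpr a) 0 0 * (rep Q k hpq hqr hpr b) 0 2 +
      (rep Q k hpq hqr hpr a) 0 1 * (rep Q k hpq hqr hpr b) 1 2 +
      (rep Q k hpq hqr hpr a) 0 2 * (rep Q k hpq hqr hpr b) 2 2 := by
  obtain ⟨a1, a2, a3⟩ := rep_upper Q k hpq hqr hpr a
  obtain ⟨b1, b2, b3⟩ := rep_upper Q k hpq hqr hpr b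
  simp only [map_mul, Matrix.mul_apply, Fin.sum_univ_three, a1, a2, a3, b1, b2, b3]
  simp

lemma rep_idl_p {z : Prep Q k} (hz : z ∈ idl Q k p) : (rep Q k hpq hqr hpr z) 0 0 = 0 := by
  unfold idl at hz
  induction hz using TwoSidedIdeal.span_induction with
  | mem x hx =>
    rw [Set.mem_singleton_iff] at hx
    rw [hx, map_sub, rep_e, map_one]
    simp [repGen, hpq, hpr]
  | zero => simp
  | add x y _ _ hx hy => simp [hx, hy]
  | neg x _ hx => simp [hx]
  | left_absorb a x _ hx => rw [(rep_mul_entries Q k hpq hqr hpr a x).1, hx, mul_zero]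
  | right_absorb a x _ hx => rw [(rep_mul_entries Q k hpq hqr hpr x a).1, hx, zero_mul]

lemma rep_idl_q {z : Prep Q k} (hz : z ∈ idl Q k q) : (rep Q k hpq hqr hpr z) 1 1 = 0 := by
  unfold idl at hz
  induction hz using TwoSidedIdeal.span_induction with
  | mem x hx =>
    rw [Set.mem_singleton_iff] at hx
    rw [hx, map_sub, rep_e, map_one]
    simp [repGen, hpq.symm, hqr]
  | zero => simp
  | add x y _ _ hx hy => simp [hx, hy]
  | neg x _ hx => simp [hx]
  | left_absorb a x _ hx => rw [(rep_mul_entries Q k hpq hqr hpr a x).2.1, hx, mul_zero]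
  | right_absorb a x _ hx => rw [(rep_mul_entries Q k hpq hqr hpr x a).2.1, hx, zero_mul]

lemma rep_idl_r {z : Prep Q k} (hz : z ∈ idl Q k r) : (rep Q k hpq hqr hpr z) 2 2 = 0 := by
  unfold idl at hz
  induction hz using TwoSidedIdeal.span_induction with
  | mem x hx =>
    rw [Set.mem_singleton_iff] at hx
    rw [hx, map_sub, rep_e, map_one]
    simp [repGen, hpr.symm, hqr.symm]
  | zero => simp
  | add x y _ _ hx hy => simp [hx, hy]
  | neg x _ hx => simp [hx]
  | left_absorb a x _ hx => rw [(rep_mul_entries Q k hpq hqr hpr a x).2.2.1, hx, mul_zero]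
  | right_absorb a x _ hx => rw [(rep_mul_entries Q k hpq hqr hpr x a).2.2.1, hx, zero_mul]

/-- `I_p I_q J` acts with zero first two columns of the first row -/
lemma rep_two {J : Submodule (Prep Q k)ᵐᵒᵖ (Prep Q k)} {z : Prep Q k}
    (hz : z ∈ prodIdeal Q k (idl Q k p) (prodIdeal Q k (idl Q k q) J)) :
    (rep Q k hpq hqr hpr z) 0 0 = 0 ∧ (rep Q k hpq hqr hpr z) 0 1 = 0 := by
  have h1 : ∀ y ∈ prodIdeal Q k (idl Q k q) J, (rep Q k hpq hqr hpr y) 1 1 = 0 := by
    intro y hy
    refine prod_induction (C := fun y => (rep Q k hpq hqr hpr y) 1 1 = 0) ?_ ?_ ?_ ?_ hy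
    · intro s hs t _
      rw [(rep_mul_entries Q k hpq hqr hpr s t).2.1, rep_idl_q Q k hpq hqr hpr hs, zero_mul]
    · simp
    · intro a b ha hb; simp [ha, hb]
    · intro a b ha; rw [(rep_mul_entries Q k hpq hqr hpr a b).2.1, ha, zero_mul]
  refine prod_induction (C := fun y => (rep Q k hpq hqr hpr y) 0 0 = 0 ∧
    (rep Q k hpq hqr hpr y) 0 1 = 0) ?_ ?_ ?_ ?_ hz
  · intro s hs t ht
    have e1 := rep_mul_entries Q k hpq hqr hpr s t
    have e2 := rep_idl_p Q k hpq hqr hpr hs
    rw [e1.1, e1.2.2.2.1, e2, h1 t ht]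
    simp
  · simp
  · rintro a b ⟨a1, a2⟩ ⟨b1, b2⟩; simp [a1, a2, b1, b2]
  · rintro a b ⟨a1, a2⟩
    have e1 := rep_mul_entries Q k hpq hqr hpr a b
    rw [e1.1, e1.2.2.2.1, a1, a2]
    simp

/-- `I_p I_q I_r J` acts as zero -/
lemma rep_three {J : Submodule (Prep Q k)ᵐᵒᵖ (Prep Q k)} {z : Prep Q k}
    (hz : z ∈ prodIdeal Q k (idl Q k p)
      (prodIdeal Q k (idl Q k q) (prodIdeal Q k (idl Q k r) J))) :
    rep Q k hpq hqr hpr z = 0 := by
  have h1 : ∀ y ∈ prodIdeal Q k (idl Q k r) J, (rep Q k hpq hqr hpr y) 2 2 = 0 := by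
    intro y hy
    refine prod_induction (C := fun y => (rep Q k hpq hqr hpr y) 2 2 = 0) ?_ ?_ ?_ ?_ hy
    · intro s hs t _
      rw [(rep_mul_entries Q k hpq hqr hpr s t).2.2.1, rep_idl_r Q k hpq hqr hpr hs, zero_mul]
    · simp
    · intro a b ha hb; simp [ha, hb]
    · intro a b ha; rw [(rep_mul_entries Q k hpq hqr hpr a b).2.2.1, ha, zero_mul]
  have h2 : ∀ y ∈ prodIdeal Q k (idl Q k q) (prodIdeal Q k (idl Q k r) J),
      (rep Q k hpq hqr hpr y) 1 1 = 0 ∧ (rep Q k hpq hqr hpr y) 1 2 = 0 ∧
      (rep Q k hpq hqr hpr y) 2 2 = 0 := by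
    intro y hy
    refine prod_induction (C := fun y => (rep Q k hpq hqr hpr y) 1 1 = 0 ∧
      (rep Q k hpq hqr hpr y) 1 2 = 0 ∧ (rep Q k hpq hqr hpr y) 2 2 = 0) ?_ ?_ ?_ ?_ hy
    · intro s hs t ht
      have e1 := rep_mul_entries Q k hpq hqr hpr s t
      rw [e1.2.1, e1.2.2.1, e1.2.2.2.2.1, rep_idl_q Q k hpq hqr hpr hs, h1 t ht]
      simp
    · simp
    · rintro a b ⟨a1, a2, a3⟩ ⟨b1, b2, b3⟩; simp [a1, a2, a3, b1, b2, b3]
    · rintro a b ⟨a1, a2, a3⟩
      have e1 := rep_mul_entries Q k hpq hqr hpr a b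
      rw [e1.2.1, e1.2.2.1, e1.2.2.2.2.1, a1, a2, a3]
      simp
  refine prod_induction (C := fun y => rep Q k hpq hqr hpr y = 0) ?_ ?_ ?_ ?_ hz
  · intro s hs t ht
    have e1 := rep_mul_entries Q k hpq hqr hpr s t
    obtain ⟨t1, t2, t3⟩ := h2 t ht
    have s1 := rep_idl_p Q k hpq hqr hpr hs
    obtain ⟨u1, u2, u3⟩ := rep_upper Q k hpq hqr hpr (s * t)
    ext i j
    fin_cases i <;> fin_cases j <;>
      simp [e1, u1, u2, u3, t1, t2, t3, s1]
  · simp
  · intro a b ha hb; rw [map_add, ha, hb, add_zero]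
  · intro a b ha; rw [map_mul, ha, zero_mul]

end Representation

/-! ### The counterexample -/

section Counterexample

variable {V : Type v} {Q : OrientedGraph V} {k : Type u} [Field k] [Fintype V]

lemma quot_mk_eq_zero {J J' : Submodule (Prep Q k)ᵐᵒᵖ (Prep Q k)} {x : Prep Q k} (hx : x ∈ J) :
    (Submodule.Quotient.mk (p := J'.submoduleOf J) ⟨x, hx⟩ = 0) ↔ x ∈ J' := by
  rw [Submodule.Quotient.mk_eq_zero]
  rfl

/-- the dimension vector of a quotient `J / J'` with a basis homogeneous for the vertices -/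
lemma dimVec_quot {J J' : Submodule (Prep Q k)ᵐᵒᵖ (Prep Q k)} {n : ℕ} (g : Fin n → Prep Q k)
    (t : Fin n → V) (ht : Function.Injective t) (hg : ∀ i, g i ∈ J)
    (hge : ∀ i, g i * e Q k (t i) = g i) (hg' : ∀ i, g i ∉ J')
    (hspan : ∀ x ∈ J, ∃ c : Fin n → k, x - ∑ i, c i • g i ∈ J') (v : V) :
    ((∃ i, t i = v) → dimVec Q k (↥J ⧸ J'.submoduleOf J) v = 1) ∧
    ((¬ ∃ i, t i = v) → dimVec Q k (↥J ⧸ J'.submoduleOf J) v = 0) := by
  have hφ : ∀ (x : Prep Q k) (hx : x ∈ J),
      Algebra.lsmul k k (↥J ⧸ J'.submoduleOf J) (op (e Q k v))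
        (Submodule.Quotient.mk (p := J'.submoduleOf J) ⟨x, hx⟩) =
      Submodule.Quotient.mk (p := J'.submoduleOf J) ⟨x * e Q k v, mul_right_mem hx _⟩ := by
    intro x hx
    rfl
  have hprod : ∀ i, t i ≠ v → g i * e Q k v = 0 := by
    intro i hi
    rw [← hge i, mul_assoc, e_mul_ne Q k hi, mul_zero]
  constructor
  · rintro ⟨i0, rfl⟩
    unfold dimVec
    have hrange : LinearMap.range (Algebra.lsmul k k (↥J ⧸ J'.submoduleOf J)
        (op (e Q k (t i0)))) =
        Submodule.span k {Submodule.Quotient.mk (p := J'.submoduleOf J) ⟨g i0, hg i0⟩} := by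
      apply le_antisymm
      · rintro _ ⟨m, rfl⟩
        obtain ⟨⟨x, hx⟩, rfl⟩ := Submodule.Quotient.mk_surjective _ m
        rw [hφ x hx]
        obtain ⟨c, hc⟩ := hspan x hx
        rw [Submodule.mem_span_singleton]
        refine ⟨c i0, ?_⟩
        have h1 : (x - ∑ i, c i • g i) * e Q k (t i0) = x * e Q k (t i0) - c i0 • g i0 := by
          rw [sub_mul, Finset.sum_mul, Finset.sum_eq_single i0]
          · rw [smul_mul_assoc, hge]
          · intro i _ hi
            rw [smul_mul_assoc, hprod i (fun h => hi (ht h)), smul_zero]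
          · intro h; exact absurd (Finset.mem_univ _) h
        have h2 : x * e Q k (t i0) - c i0 • g i0 ∈ J' := by
          rw [← h1]; exact mul_right_mem hc _
        symm
        rw [← sub_eq_zero]
        change Submodule.Quotient.mk (p := J'.submoduleOf J)
          (⟨x * e Q k (t i0), mul_right_mem hx _⟩ - c i0 • ⟨g i0, hg i0⟩) = 0
        rw [Submodule.Quotient.mk_eq_zero]
        exact h2
      · rw [Submodule.span_le, Set.singleton_subset_iff]
        refine ⟨Submodule.Quotient.mk (p := J'.submoduleOf J) ⟨g i0, hg i0⟩, ?_⟩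
        rw [hφ]
        congr 2
        exact hge i0
    rw [hrange]
    apply finrank_span_singleton
    rw [Ne, quot_mk_eq_zero]
    exact hg' i0
  · intro hv
    unfold dimVec
    have hrange : LinearMap.range (Algebra.lsmul k k (↥J ⧸ J'.submoduleOf J)
        (op (e Q k v))) = ⊥ := by
      rw [eq_bot_iff]
      rintro _ ⟨m, rfl⟩
      obtain ⟨⟨x, hx⟩, rfl⟩ := Submodule.Quotient.mk_surjective _ m
      rw [hφ x hx, Submodule.mem_bot, quot_mk_eq_zero]
      obtain ⟨c, hc⟩ := hspan x hx
      have h1 : (x - ∑ i, c i • g i) * e Q k v = x * e Q k v := by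
        rw [sub_mul, Finset.sum_mul, Finset.sum_eq_zero, sub_zero]
        intro i _
        rw [smul_mul_assoc, hprod i (fun h => hv ⟨i, h⟩), smul_zero]
      rw [← h1]
      exact mul_right_mem hc _
    rw [hrange, finrank_bot]

variable {a b c : V} (hab : Q.graph.Adj a b) (hbc : Q.graph.Adj b c) (hac : a ≠ c)
  (hnac : ¬ Q.graph.Adj a c)

/-- abbreviation for the product `I_i J` -/
noncomputable abbrev P (i : V) (J : Submodule (Prep Q k)ᵐᵒᵖ (Prep Q k)) :
    Submodule (Prep Q k)ᵐᵒᵖ (Prep Q k) := prodIdeal Q k (idl Q k i) J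

include hab hbc hac hnac

/-- The module `B_2`. -/
lemma spec_two : ∃ g : Fin 2 → Prep Q k,
    (g 0 = e Q k a ∧ g 1 = xx Q k ⟨(a, b), hab⟩) ∧
    (∀ i, g i ∈ P b ⊤) ∧ (∀ i, g i * e Q k (![a, b] i) = g i) ∧
    (∀ i, g i ∉ P a (P b (⊤ : Submodule (Prep Q k)ᵐᵒᵖ (Prep Q k)))) ∧
    (∀ x ∈ P b ⊤, ∃ c : Fin 2 → k, x - ∑ i, c i • g i ∈
      P a (P b (⊤ : Submodule (Prep Q k)ᵐᵒᵖ (Prep Q k)))) := by
  have hab' : a ≠ b := hab.ne
  have hbc' : b ≠ c := hbc.ne
  refine ⟨![e Q k a, xx Q k ⟨(a, b), hab⟩], ⟨rfl, rfl⟩, ?_, ?_, ?_, ?_⟩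
  · have h1 : e Q k a ∈ P b (⊤ : Submodule (Prep Q k)ᵐᵒᵖ (Prep Q k)) := by
      have := mul_mem_prod (J := (⊤ : Submodule (Prep Q k)ᵐᵒᵖ (Prep Q k)))
        (e_mem_idl (Q := Q) (k := k) hab') (y := 1) trivial
      rwa [mul_one] at this
    have h2 : xx Q k ⟨(a, b), hab⟩ ∈ P b (⊤ : Submodule (Prep Q k)ᵐᵒᵖ (Prep Q k)) := by
      rw [← e_mul_x]
      exact mul_right_mem h1 _
    intro i
    fin_cases i
    · exact h1
    · exact h2
  · intro i
    fin_cases i
    · exact e_mul_self Q k a
    · exact x_mul_e Q k ⟨(a, b), hab⟩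
  · intro i hi
    have h := rep_two Q k hab' hbc' hac hi
    fin_cases i
    · have h0 := h.1
      simp [rep_e, repGen, hab', hac] at h0
    · have h1 := h.2
      simp [rep_x, repGen] at h1
  · intro x hx
    obtain ⟨α, β, γ, h⟩ := path_span (J := P a (P b (⊤ : Submodule (Prep Q k)ᵐᵒᵖ (Prep Q k))))
      hab hbc hac hnac ((nice_top.prod _).prod _)
      (fun v hv1 hv2 _ => ((abs_top v).prod hv2).prod hv1) x
    refine ⟨![α, β], ?_⟩
    have h1 := sub_e_mul_mem a hx
    have h2 : xx Q k ⟨(a, b), hab⟩ * xx Q k ⟨(b, c), hbc⟩ ∈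
        P a (P b (⊤ : Submodule (Prep Q k)ᵐᵒᵖ (Prep Q k))) := by
      apply mul_mem_prod
      · exact x_mem_idl_snd hab'.symm
      · have := mul_mem_prod (J := (⊤ : Submodule (Prep Q k)ᵐᵒᵖ (Prep Q k)))
          (x_mem_idl_snd (Q := Q) (k := k) (d := ⟨(b, c), hbc⟩) (i := b) hbc'.symm) (y := 1) trivial
        rwa [mul_one] at this
    have h3 : γ • (xx Q k ⟨(a, b), hab⟩ * xx Q k ⟨(b, c), hbc⟩) ∈
        P a (P b (⊤ : Submodule (Prep Q k)ᵐᵒᵖ (Prep Q k))) :=
      Submodule.smul_of_tower_mem _ γ h2
    have h4 := Submodule.add_mem _ (Submodule.add_mem _ h1 h) h3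
    rw [Fin.sum_univ_two]
    simp only [Matrix.cons_val_zero, Matrix.cons_val_one]
    convert h4 using 1
    abel

/-- The module `B_4`. -/
lemma spec_four {J : Submodule (Prep Q k)ᵐᵒᵖ (Prep Q k)}
    (hJ : J = P b (P a (P b (⊤ : Submodule (Prep Q k)ᵐᵒᵖ (Prep Q k))))) :
    ∃ g : Fin 3 → Prep Q k,
    (g 0 = e Q k c ∧ g 1 = xx Q k ⟨(c, b), hbc.symm⟩ ∧
      g 2 = xx Q k ⟨(c, b), hbc.symm⟩ * xx Q k ⟨(b, a), hab.symm⟩) ∧
    (∀ i, g i ∈ J) ∧ (∀ i, g i * e Q k (![c, b, a] i) = g i) ∧
    (∀ i, g i ∉ P c J) ∧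
    (∀ x ∈ J, ∃ c' : Fin 3 → k, x - ∑ i, c' i • g i ∈ P c J) ∧
    g 2 * xx Q k ⟨(a, b), hab⟩ ∈ P c J := by
  have hab' : a ≠ b := hab.ne
  have hbc' : b ≠ c := hbc.ne
  have hJn : Nice J := by rw [hJ]; exact ((nice_top.prod _).prod _).prod _
  have hJabs : ∀ v, v ≠ a → v ≠ b → Abs v J := by
    intro v h1 h2
    rw [hJ]; exact (((abs_top v).prod h2).prod h1).prod h2
  have hec : e Q k c ∈ J := by
    have := hJabs c hac.symm hbc'.symm 1 1
    rwa [one_mul, mul_one] at this
  have hx : xx Q k ⟨(c, b), hbc.symm⟩ ∈ J := by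
    rw [← e_mul_x]; exact mul_right_mem hec _
  have hncb : ¬ Q.graph.Adj c a := fun h => hnac h.symm
  refine ⟨![e Q k c, xx Q k ⟨(c, b), hbc.symm⟩,
    xx Q k ⟨(c, b), hbc.symm⟩ * xx Q k ⟨(b, a), hab.symm⟩], ⟨rfl, rfl, rfl⟩, ?_, ?_, ?_, ?_, ?_⟩
  · intro i
    fin_cases i
    · exact hec
    · exact hx
    · exact mul_right_mem hx _
  · intro i
    fin_cases i
    · exact e_mul_self Q k c
    · exact x_mul_e Q k ⟨(c, b), hbc.symm⟩
    · change xx Q k ⟨(c, b), hbc.symm⟩ * xx Q k ⟨(b, a), hab.symm⟩ * e Q k a = _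
      rw [mul_assoc]
      have := x_mul_e Q k ⟨(b, a), hab.symm⟩
      change xx Q k ⟨(b, a), hab.symm⟩ * e Q k a = _ at this
      rw [this]
      rfl
  · intro i hi
    rw [hJ] at hi
    have h := rep_three Q k hbc'.symm hab'.symm hac.symm hi
    fin_cases i
    · have h0 := congrFun (congrFun h 0) 0
      simp [rep_e, repGen, hbc'.symm, hac.symm] at h0
    · have h0 := congrFun (congrFun h 0) 1
      simp [rep_x, repGen] at h0
    · have h0 := congrFun (congrFun h 0) 2
      simp [rep_x, repGen, hbc', hab'] at h0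
  · intro x hx'
    obtain ⟨α, β, γ, h⟩ := path_span (J := P c J)
      hbc.symm hab.symm hac.symm hncb (hJn.prod _)
      (fun v hv1 hv2 hv3 => (hJabs v hv3 hv2).prod hv1) x
    refine ⟨![α, β, γ], ?_⟩
    have h1 := sub_e_mul_mem c hx'
    have h4 := Submodule.add_mem _ h1 h
    rw [Fin.sum_univ_three]
    simp only [Matrix.cons_val_zero, Matrix.cons_val_one, Matrix.cons_val_two, Matrix.cons_val]
    convert h4 using 1
    abel
  · -- `x_cb x_ba x_ab` is zero modulo `J_4`
    change xx Q k ⟨(c, b), hbc.symm⟩ * xx Q k ⟨(b, a), hab.symm⟩ * xx Q k ⟨(a, b), hab⟩ ∈ _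
    have hxcb : xx Q k ⟨(c, b), hbc.symm⟩ * xx Q k ⟨(b, c), hbc⟩ ∈ P c J := by
      have := vertex_rel Q k (P c J).toAddSubgroup ⟨(c, b), hbc.symm⟩ (by
        intro d hd1 hd2
        have h1 : d.fst = c := hd1
        have hsnd : d.snd ≠ c := by intro h; exact d.adj.ne (h1.trans h.symm)
        have hsb : d.snd ≠ b := by
          intro h
          apply hd2
          obtain ⟨⟨d1, d2⟩, hd⟩ := d
          simp only at h1 h
          subst h1 h
          rfl
        have hsa : d.snd ≠ a := by
          intro h; apply hncb; have := d.adj; rw [h1, h] at this; exact this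
        have := (hJabs d.snd hsa hsb).prod (i := c) hsnd (xx Q k d) (xx Q k d.symm)
        rwa [x_mul_e] at this)
      exact this
    have := vertex_rel Q k ((P c J).toAddSubgroup.comap
        (AddMonoidHom.mulLeft (xx Q k ⟨(c, b), hbc.symm⟩))) ⟨(b, a), hab.symm⟩ (by
      intro d hd1 hd2
      have h1 : d.fst = b := hd1
      change xx Q k ⟨(c, b), hbc.symm⟩ * (xx Q k d * xx Q k d.symm) ∈ P c J
      rw [← mul_assoc]
      have hsb : d.snd ≠ b := by intro h; exact d.adj.ne (h1.trans h.symm)
      have hsa : d.snd ≠ a := by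
        intro h
        apply hd2
        obtain ⟨⟨d1, d2⟩, hd⟩ := d
        simp only at h1 h
        subst h1 h
        rfl
      by_cases hsc : d.snd = c
      · obtain ⟨⟨d1, d2⟩, hd⟩ := d
        simp only at h1 hsc
        subst h1 hsc
        exact mul_right_mem hxcb _
      · have := (hJabs d.snd hsa hsb).prod (i := c) hsc
          (xx Q k ⟨(c, b), hbc.symm⟩ * xx Q k d) (xx Q k d.symm)
        rwa [mul_assoc _ (xx Q k d) (e Q k d.snd), x_mul_e] at this)
    rw [mul_assoc]
    exact this

/-- The module `B_6`. -/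
lemma spec_six {J : Submodule (Prep Q k)ᵐᵒᵖ (Prep Q k)}
    (hJ : J = P b (P c (P b (P a (P b (⊤ : Submodule (Prep Q k)ᵐᵒᵖ (Prep Q k))))))) :
    ∃ g : Fin 1 → Prep Q k, (∀ i, g i ∈ J) ∧ (∀ i, g i * e Q k (![c] i) = g i) ∧
    (∀ i, g i ∉ P a J) ∧ (∀ x ∈ J, ∃ c' : Fin 1 → k, x - ∑ i, c' i • g i ∈ P a J) := by
  have hab' : a ≠ b := hab.ne
  have hbc' : b ≠ c := hbc.ne
  have hJ2n : Nice (P a (P b (⊤ : Submodule (Prep Q k)ᵐᵒᵖ (Prep Q k)))) :=
    (nice_top.prod _).prod _
  have hJn : Nice J := by rw [hJ]; exact ((hJ2n.prod _).prod _).prod _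
  have hle : J ≤ P a (P b (⊤ : Submodule (Prep Q k)ᵐᵒᵖ (Prep Q k))) := by
    rw [hJ]
    exact (((hJ2n.prod _).prod _).prod_le _).trans (((hJ2n.prod _).prod_le _).trans
      (hJ2n.prod_le _))
  have hJabs : ∀ v, v ≠ a → v ≠ b → v ≠ c → Abs v J := by
    intro v h1 h2 h3
    rw [hJ]; exact (((((abs_top v).prod h2).prod h1).prod h2).prod h3).prod h2
  set X := xx Q k ⟨(a, b), hab⟩ with hX
  set Y := xx Q k ⟨(b, c), hbc⟩ with hY
  have heX : e Q k a * X = X := e_mul_x Q k ⟨(a, b), hab⟩
  have hXYin : X * Y ∈ J := by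
    have h1 : X * Y ∈ P a (P b (⊤ : Submodule (Prep Q k)ᵐᵒᵖ (Prep Q k))) := by
      apply mul_mem_prod
      · exact x_mem_idl_snd hab'.symm
      · have := mul_mem_prod (J := (⊤ : Submodule (Prep Q k)ᵐᵒᵖ (Prep Q k)))
          (x_mem_idl_snd (Q := Q) (k := k) (d := ⟨(b, c), hbc⟩) (i := b) hbc'.symm) (y := 1) trivial
        rwa [mul_one] at this
    have h2 : e Q k a * (e Q k a * (e Q k a * (X * Y))) = X * Y := by
      simp only [← mul_assoc, heX, e_mul_self]
    rw [hJ, ← h2]
    exact mul_mem_prod (e_mem_idl hab') (mul_mem_prod (e_mem_idl hac)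
      (mul_mem_prod (e_mem_idl hab') h1))
  refine ⟨![X * Y], ?_, ?_, ?_, ?_⟩
  · intro i
    fin_cases i
    exact hXYin
  · intro i
    fin_cases i
    change X * Y * e Q k c = X * Y
    have : Y * e Q k c = Y := x_mul_e Q k ⟨(b, c), hbc⟩
    rw [mul_assoc, this]
  · intro i hi
    rw [hJ] at hi
    have h := rep_three Q k hab' hbc' hac hi
    fin_cases i
    have h0 := congrFun (congrFun h 0) 2
    simp [hX, hY, rep_x, repGen, hbc'.symm, hab'.symm] at h0
  · intro x hx'
    obtain ⟨α, β, γ, h⟩ := path_span (J := P a J) hab hbc hac hnac (hJn.prod _)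
      (fun v hv1 hv2 hv3 => (hJabs v hv1 hv2 hv3).prod hv1) x
    have h5 : α • e Q k a + β • X + γ • (X * Y) ∈ J := by
      have h6 : e Q k a * x - (e Q k a * x - (α • e Q k a + β • X + γ • (X * Y))) ∈ J :=
        J.sub_mem (hJn _ _ hx') (hJn.prod_le _ h)
      rwa [sub_sub_cancel] at h6
    have h7 := rep_two Q k hab' hbc' hac (hle h5)
    have hα : α = 0 := by
      have := h7.1
      simpa [hX, hY, rep_e, rep_x, repGen, hab', hbc', hac, hab'.symm, hbc'.symm] using this
    have hβ : β = 0 := by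
      have := h7.2
      simpa [hX, hY, rep_e, rep_x, repGen, hab', hbc', hac, hab'.symm, hbc'.symm] using this
    refine ⟨![γ], ?_⟩
    have h1 := sub_e_mul_mem a hx'
    have h4 := Submodule.add_mem _ h1 h
    rw [hα, hβ] at h4
    simp only [Finset.univ_unique, Fin.default_eq_zero, Fin.isValue, Matrix.cons_val_fin_one,
      Finset.sum_const, Finset.card_singleton, one_smul]
    convert h4 using 1
    simp only [zero_smul, zero_add]
    abel

end Counterexample

/-! ### The word and the path -/

section Main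

lemma coxeter_simplyLaced {V : Type v} (G : SimpleGraph V) (i j : V) :
    (coxeterMatrix G) i j = 1 ∨ (coxeterMatrix G) i j = 2 ∨ (coxeterMatrix G) i j = 3 := by
  classical
  change (if i = j then 1 else if G.Adj i j then 3 else 2) = 1 ∨
    (if i = j then 1 else if G.Adj i j then 3 else 2) = 2 ∨
    (if i = j then 1 else if G.Adj i j then 3 else 2) = 3
  split_ifs <;> simp

lemma coxeter_liftable {V : Type v} [Fintype V] (G : SimpleGraph V) :
    (coxeterMatrix G).IsLiftable (rfp G) := by
  classical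
  intro i j
  have h : (coxeterMatrix G) i j = (if i = j then 1 else if G.Adj i j then 3 else 2) := rfl
  by_cases hij : i = j
  · subst hij
    rw [h, if_pos rfl, pow_one]
    exact rfp_mul_self G i
  · by_cases ha : G.Adj i j
    · rw [h, if_neg hij, if_pos ha]
      exact rfp_three G ha
    · rw [h, if_neg hij, if_neg ha]
      exact rfp_two G hij ha

/-- For a path `a - b - c` the word `b a b c b a` is reduced. -/
lemma word_reduced {V : Type v} [Fintype V] (G : SimpleGraph V) {a b c : V} (hab : G.Adj a b)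
    (hbc : G.Adj b c) (hac : a ≠ c) (hnac : ¬ G.Adj a c) :
    (coxeterMatrix G).toCoxeterSystem.IsReduced [b, a, b, c, b, a] := by
  classical
  apply isReduced_of_nodup _ (coxeter_simplyLaced G)
  set cs := (coxeterMatrix G).toCoxeterSystem with hcs
  set F := cs.lift ⟨rfp G, coxeter_liftable G⟩ with hF
  have hFs : ∀ i, F (cs.simple i) = rfp G i := fun i =>
    cs.lift_apply_simple (coxeter_liftable G) i
  set w := vec a b c 3 4 3 with hw
  let val : (coxeterMatrix G).Group → ℤ × ℤ × ℤ := fun x => (F x w a, F x w b, F x w c)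
  have hrfp : ∀ i y, rfp G i y = rf G i y := fun i y => rfl
  have hne : b ≠ a := hab.ne.symm
  have hne2 : c ≠ b := hbc.ne.symm
  have hvec : ∀ α β γ : ℤ, (vec a b c α β γ) a = α ∧ (vec a b c α β γ) b = β ∧
      (vec a b c α β γ) c = γ := by
    intro α β γ
    refine ⟨?_, ?_, ?_⟩ <;> simp [vec, hne, hne2, hac.symm]
  have hmap : (cs.rightInvSeq [b, a, b, c, b, a]).map val =
      [(3, 2, 3), (3, 0, -1), (3, 4, 1), (-3, -2, -3), (-1, 0, 3), (1, 4, 3)] := by
    simp only [CoxeterSystem.rightInvSeq, CoxeterSystem.wordProd_cons,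
      CoxeterSystem.wordProd_nil, mul_inv_rev, CoxeterSystem.inv_simple, mul_one, inv_one,
      one_mul, List.map_cons, List.map_nil, val, map_mul, hFs, Equiv.Perm.mul_apply, hrfp, hw,
      rf_a G hab hbc hac hnac, rf_b G hab hbc hac hnac, rf_c G hab hbc hac hnac,
      (hvec _ _ _).1, (hvec _ _ _).2.1, (hvec _ _ _).2.2]
    norm_num
  apply List.Nodup.of_map val
  rw [hmap]
  decide

/-- A tree with at least three vertices contains a path `a - b - c`. -/
lemma exists_path {V : Type v} [Fintype V] {G : SimpleGraph V} (hG : G.IsTree)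
    (hV : 3 ≤ Fintype.card V) :
    ∃ a b c : V, G.Adj a b ∧ G.Adj b c ∧ a ≠ c ∧ ¬ G.Adj a c := by
  classical
  have hb : ∃ b, 2 ≤ G.degree b := by
    by_contra h
    push Not at h
    have h1 : ∑ v, G.degree v ≤ ∑ _v : V, 1 := Finset.sum_le_sum (fun v _ => by
      have := h v; omega)
    have h2 := G.sum_degrees_eq_twice_card_edges
    have h3 := hG.card_edgeFinset
    simp only [Finset.sum_const, Finset.card_univ, smul_eq_mul, mul_one] at h1
    omega
  obtain ⟨b, hb⟩ := hb
  have hb2 : 1 < (G.neighborFinset b).card := by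
    rw [SimpleGraph.card_neighborFinset_eq_degree]; omega
  rw [Finset.one_lt_card] at hb2
  obtain ⟨a, ha, c, hc, hac⟩ := hb2
  rw [SimpleGraph.mem_neighborFinset] at ha hc
  refine ⟨a, b, c, ha.symm, hc, hac, ?_⟩
  intro hadj
  let p1 : G.Walk a c := SimpleGraph.Walk.cons hadj SimpleGraph.Walk.nil
  let p2 : G.Walk a c := SimpleGraph.Walk.cons ha.symm
    (SimpleGraph.Walk.cons hc SimpleGraph.Walk.nil)
  have h1 : p1.IsPath := by
    simp [p1, SimpleGraph.Walk.cons_isPath_iff, hac]
  have h2 : p2.IsPath := by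
    simp [p2, SimpleGraph.Walk.cons_isPath_iff, hac, hc.ne, ha.ne.symm]
  have h3 := (hG.isAcyclic.subsingleton_path a c).elim ⟨p1, h1⟩ ⟨p2, h2⟩
  have h4 := congrArg (fun p : G.Path a c => (p : G.Walk a c).length) h3
  simp [p1, p2] at h4

end Main

end Pool.Agent.H3.Bricks
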